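import Mathlib
import Pool.Agent.TH899.UG.GD4
import Pool.Agent.Y827.RO.NarF

/-! Goldbach or Polignac: the input from the coloured Maynard-Tao theorem with the constant `18 / 5`,
with a power of the logarithm. Adapted from `Pool.Agent.TH899.UG.GD1`. -/

set_option autoImplicit false

namespace Pool.Agent.U849.GP

open Finset Filter Topology
open Pool.Agent.TH899.UG.GD (difc golc sl bs toNat_eq')
open Pool.Agent.Y827.GS (Adf cntN)

open Classical in
/-- **the input** -/
theorem core : ∃ K B : ℕ, 1 ≤ K ∧ ∀ᶠ N : ℕ in atTop,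
    ∀ (β : ℕ) (A : Fin 4 → Fin K → ℕ),
      (∀ g, Function.Injective (A g)) → (∀ i j, A 1 i < A 0 j) → (∀ i j, A 3 i < A 2 j) →
      (∀ g i, 60 * A g i ≤ N) → 13 * N ≤ 24 * β → (∀ g i, β + A g i ≤ N) →
      (∀ p : ℕ, p.Prime → p ≤ 4 * K → ∃ n : ℤ, ∀ g i,
        ¬ ((p : ℤ) ∣ sl (-1) g * n + (bs β g + A g i))) →
      (∃ i j, (N : ℝ) / (Real.log N) ^ B ≤ difc N (A 0 i - A 1 j)) ∨
      (∃ i j, (N : ℝ) / (Real.log N) ^ B ≤ difc N (A 2 i - A 3 j)) ∨
      (∃ g g' : Fin 4, (g = 0 ∨ g = 1) ∧ (g' = 2 ∨ g' = 3) ∧ ∃ i j,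
        (N : ℝ) / (Real.log N) ^ B ≤ golc N (-1) (β + A g' j + A g i)) := by
  obtain ⟨K, hK, H⟩ := Pool.Agent.Y827.RO.lamRD 4
  refine ⟨K, 4 * K + 2, hK, ?_⟩
  filter_upwards [H (by norm_num) 1, eventually_ge_atTop 1] with N hN hN1
  intro β A hinj h10 h32 hN60 hβ hb hloc
  have hsl : ∀ g, sl (-1) g = 1 ∨ sl (-1) g = -1 := by
    intro g
    unfold sl
    split_ifs
    · exact Or.inl rfl
    · exact Or.inr rfl
  have hβr : 13 * (N : ℝ) ≤ 24 * β := by exact_mod_cast hβ
  obtain ⟨S, σ, hS, hcnt⟩ := hN (fun g i => (sl (-1) g, bs β g + A g i))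
    (by
      rintro ⟨g, i⟩ ⟨g', i'⟩ h
      have h0 : sl (-1) g = sl (-1) g' := congrArg (fun z : ℤ × ℤ => z.1) h
      have h1 : bs β g + A g i = bs β g' + A g' i' := congrArg (fun z : ℤ × ℤ => z.2) h
      have h3 : g = g' := by
        by_contra hne
        have k1 := h10
        have k2 := h32
        unfold sl at h0
        unfold bs at h1
        fin_cases g <;> fin_cases g' <;> simp at h0 h1 hne
        all_goals first
          | (have := k1 i i'; omega)
          | (have := k1 i' i; omega)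
          | (have := k2 i i'; omega)
          | (have := k2 i' i; omega)
      subst h3
      have h4 : A g i = A g i' := by
        have h5 : ((A g i : ℕ) : ℤ) = A g i' := by linarith
        exact_mod_cast h5
      rw [hinj g h4])
    (fun g i => by
      have h1 := hb g i
      have h2 := hN60 g i
      have hN0 : (0 : ℝ) ≤ N := Nat.cast_nonneg _
      have hA0 : (0 : ℝ) ≤ (A g i : ℝ) := Nat.cast_nonneg _
      refine ⟨?_, ?_, ?_, ?_, ?_⟩
      · rcases hsl g with h | h <;> simp only [h] <;> decide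
      · rcases hsl g with h | h <;> simp only [h] <;> simp
      · show |bs β g + A g i| ≤ (N : ℤ)
        unfold bs
        split_ifs
        · rw [zero_add, abs_of_nonneg (Nat.cast_nonneg _)]
          omega
        · rw [abs_of_nonneg (by positivity)]
          omega
      · rcases hsl g with h | h
        · show IsCoprime (sl (-1) g) _
          rw [h]; exact isCoprime_one_left
        · show IsCoprime (sl (-1) g) _
          rw [h]; exact isCoprime_one_left.neg_left
      · intro t ht1 ht2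
        show (N : ℝ) / 24 ≤ ((sl (-1) g : ℤ) : ℝ) * t + ((bs β g + A g i : ℤ) : ℝ)
        unfold sl bs
        split_ifs
        · push_cast
          linarith
        · push_cast
          linarith)
    (by
      intro p hp hpn
      exact hloc p hp hpn)
  have hSc : 1 < S.card := by
    by_contra hcon
    have h1 : (S.card : ℝ) ≤ 1 := by exact_mod_cast (by omega : S.card ≤ 1)
    push_cast at hS
    linarith
  -- two different classes
  have hle : ∀ g ∈ S, ∀ g' ∈ S, (N : ℝ) / (Real.log N) ^ (4 * K + 2) ≤ (((Icc 1 N).filter (fun n : ℕ =>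
      (sl (-1) g * n + (bs β g + A g (σ g))).toNat.Prime ∧
      (sl (-1) g' * n + (bs β g' + A g' (σ g'))).toNat.Prime)).card : ℝ) := by
    intro g hg g' hg'
    refine hcnt.trans ?_
    rw [Nat.cast_le]
    unfold cntN
    apply card_le_card
    intro n hn
    rw [mem_filter] at hn ⊢
    exact ⟨hn.1, hn.2 _ (mem_image_of_mem _ hg), hn.2 _ (mem_image_of_mem _ hg')⟩
  -- same side
  have hsame : ∀ (a' β' : ℤ) (x y : ℕ), (a' = 1 ∨ a' = -1) → 0 ≤ β' → y < x →
      5 * (β' + y) ≤ 6 * N →
      ((Icc 1 N).filter (fun n : ℕ => (a' * n + (β' + x)).toNat.Prime ∧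
        (a' * n + (β' + y)).toNat.Prime)).card ≤ difc N (x - y) := by
    intro a' β' x y ha' hβ' hxy hy
    unfold difc
    refine card_le_card_of_injOn (fun n : ℕ => (a' * n + (β' + y)).toNat) ?_ ?_
    · intro n hn
      obtain ⟨h1, h2, h3⟩ := mem_filter.1 (mem_coe.1 hn)
      have h4 := toNat_eq' h2
      have h5 := toNat_eq' h3
      have h6 := mem_Icc.1 h1
      refine mem_coe.2 (mem_filter.2 ⟨mem_Icc.2 ⟨h3.one_lt.le, ?_⟩, h3, ?_⟩)
      · show (a' * n + (β' + y)).toNat ≤ 3 * N
        have h7 : (a' * n + (β' + y)) ≤ 3 * N := by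
          rcases ha' with h | h <;> rw [h] <;> omega
        omega
      · show ((a' * n + (β' + y)).toNat + (x - y)).Prime
        have h7 : (a' * n + (β' + y)).toNat + (x - y) = (a' * n + (β' + x)).toNat := by
          omega
        rw [h7]
        exact h2
    · intro n hn n' hn' hnn
      have h5 := toNat_eq' (mem_filter.1 (mem_coe.1 hn)).2.2
      have h6 := toNat_eq' (mem_filter.1 (mem_coe.1 hn')).2.2
      have h7 : (a' * n + (β' + y)).toNat = (a' * n' + (β' + y)).toNat := hnn
      rw [h7, h6] at h5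
      rcases ha' with h | h <;> rw [h] at h5 <;> omega
  -- different sides
  have hdiff : ∀ (x y : ℕ), 60 * x ≤ N →
      ((Icc 1 N).filter (fun n : ℕ => (1 * (n : ℤ) + (0 + x)).toNat.Prime ∧
        (-1 * n + ((β : ℤ) + y)).toNat.Prime)).card ≤ golc N (-1) (β + y + x) := by
    intro x y hx
    unfold golc
    refine card_le_card_of_injOn (fun n : ℕ => n + x) ?_ ?_
    · intro n hn
      obtain ⟨h1, h2, h3⟩ := mem_filter.1 (mem_coe.1 hn)
      have h6 := mem_Icc.1 h1
      have e1 : (1 * (n : ℤ) + (0 + x)).toNat = n + x := by omega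
      rw [e1] at h2
      refine mem_coe.2 (mem_filter.2 ⟨mem_Icc.2 ⟨h2.one_lt.le, ?_⟩, h2, ?_⟩)
      · show n + x ≤ 3 * N
        omega
      · show (-1 * ((n + x : ℕ) : ℤ) + (β + y + x)).toNat.Prime
        have e2 : -1 * ((n + x : ℕ) : ℤ) + (β + y + x) = -1 * n + (β + y) := by
          push_cast; ring
        rw [e2]
        exact h3
    · intro n _ n' _ hnn
      have h7 : n + x = n' + x := hnn
      omega
  obtain ⟨g, hg, g', hg', hne⟩ := Finset.one_lt_card.1 hSc
  have hβ0 : (0 : ℤ) ≤ β := Nat.cast_nonneg _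
  have key : ∀ g ∈ S, ∀ g' ∈ S, g < g' →
      (∃ i j, (N : ℝ) / (Real.log N) ^ (4 * K + 2) ≤ difc N (A 0 i - A 1 j)) ∨
      (∃ i j, (N : ℝ) / (Real.log N) ^ (4 * K + 2) ≤ difc N (A 2 i - A 3 j)) ∨
      (∃ g g' : Fin 4, (g = 0 ∨ g = 1) ∧ (g' = 2 ∨ g' = 3) ∧ ∃ i j,
        (N : ℝ) / (Real.log N) ^ (4 * K + 2) ≤ golc N (-1) (β + A g' j + A g i)) := by
    intro g hg g' hg' hlt
    have h1 := hle g hg g' hg'
    by_cases hg1 : g' = 1
    · -- 0, 1
      have hg0 : g = 0 := by
        subst hg1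
        omega
      subst hg1 hg0
      left
      refine ⟨σ 0, σ 1, h1.trans ?_⟩
      have h2 := hsame 1 0 (A 0 (σ 0)) (A 1 (σ 1)) (Or.inl rfl) le_rfl (h10 _ _) (by
        have := hN60 1 (σ 1)
        omega)
      have h3 : ((Icc 1 N).filter (fun n : ℕ =>
          (sl (-1) 0 * n + (bs β 0 + A 0 (σ 0))).toNat.Prime ∧
          (sl (-1) 1 * n + (bs β 1 + A 1 (σ 1))).toNat.Prime)).card ≤
          difc N (A 0 (σ 0) - A 1 (σ 1)) := by
        simpa [sl, bs] using h2
      exact_mod_cast h3
    · by_cases hg2 : g = 2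
      · have hg3 : g' = 3 := by
          subst hg2
          omega
        subst hg2 hg3
        right; left
        refine ⟨σ 2, σ 3, h1.trans ?_⟩
        have h2 := hsame (-1) β (A 2 (σ 2)) (A 3 (σ 3)) (Or.inr rfl) hβ0 (h32 _ _) (by
          have := hb 3 (σ 3)
          omega)
        have h3 : ((Icc 1 N).filter (fun n : ℕ =>
            (sl (-1) 2 * n + (bs β 2 + A 2 (σ 2))).toNat.Prime ∧
            (sl (-1) 3 * n + (bs β 3 + A 3 (σ 3))).toNat.Prime)).card ≤
            difc N (A 2 (σ 2) - A 3 (σ 3)) := by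
          simpa [sl, bs] using h2
        exact_mod_cast h3
      · right; right
        have hgg : g = 0 ∨ g = 1 := by omega
        have hgg' : g' = 2 ∨ g' = 3 := by omega
        refine ⟨g, g', hgg, hgg', σ g, σ g', h1.trans ?_⟩
        have h2 := hdiff (A g (σ g)) (A g' (σ g')) (hN60 _ _)
        have e1 : sl (-1) g = 1 := by unfold sl; rw [if_pos hgg]
        have e2 : bs β g = 0 := by unfold bs; rw [if_pos hgg]
        have hn' : ¬ (g' = 0 ∨ g' = 1) := by omega
        have e3 : sl (-1) g' = -1 := by unfold sl; rw [if_neg hn']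
        have e4 : bs β g' = β := by unfold bs; rw [if_neg hn']
        rw [e1, e2, e3, e4]
        exact_mod_cast h2
  rcases lt_or_gt_of_ne hne with h | h
  · exact key g hg g' hg' h
  · exact key g' hg' g hg h

end Pool.Agent.U849.GP
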