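import Mathlib
import Pool.Agent.U849.GP.Core

/-! Goldbach or Polignac: the quadratic inequality for every translation. -/

set_option autoImplicit false

namespace Pool.Agent.U849.GP

open Finset Filter Topology
open Pool.Agent.TH899.UG.GD (difc golc sl bs cnt)

open Classical in
/-- the number of the pairs of elements of `X` and `Y` for which `β + x + y` has the property `G` -/
noncomputable def prs (G : ℕ → Prop) (β : ℕ) (X Y : Finset ℕ) : ℕ :=
  ((X ×ˢ Y).filter (fun z : ℕ × ℕ => G (β + z.2 + z.1))).card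

theorem prs_le (G : ℕ → Prop) (β : ℕ) (X Y : Finset ℕ) : prs G β X Y ≤ X.card * Y.card := by
  classical
  unfold prs
  rw [← card_product]
  exact card_filter_le _ _

open Classical in
/-- **the quadratic inequality** -/
theorem per_t : ∃ K B : ℕ, 1 ≤ K ∧ ∀ ε : ℝ, 0 < ε → ε ≤ 1 → ∃ R : ℕ, 1 ≤ R ∧ ∀ᶠ N : ℕ in atTop,
    ∀ (β : ℕ) (P Q : Finset ℕ),
      P.card = R → Q.card = R → (∀ x ∈ P, ∀ y ∈ Q, y < x) →
      (∀ x ∈ P, 60 * x ≤ N) → 13 * N ≤ 24 * β → (∀ x ∈ P, β + x ≤ N) →
      (∀ p : ℕ, p.Prime → p ≤ 4 * K → ∃ n : ℤ, ∀ x ∈ P ∪ Q,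
        ¬ ((p : ℤ) ∣ n + x) ∧ ¬ ((p : ℤ) ∣ -1 * n + (β + x))) →
      (∀ x ∈ P, ∀ y ∈ Q, (difc N (x - y) : ℝ) < (N : ℝ) / (Real.log N) ^ B) →
      ((R : ℝ) ^ 2 - prs (fun c => (N : ℝ) / (Real.log N) ^ B ≤ golc N (-1) (c : ℤ)) β P Q) ^ 2 ≤
        ((prs (fun c => (N : ℝ) / (Real.log N) ^ B ≤ golc N (-1) (c : ℤ)) β P P : ℝ) +
        prs (fun c => (N : ℝ) / (Real.log N) ^ B ≤ golc N (-1) (c : ℤ)) β Q Q) * (R : ℝ) ^ 2 +
        ε * (R : ℝ) ^ 4 := by
  obtain ⟨K, B₀, hK, HC⟩ := core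
  refine ⟨K, B₀, hK, fun ε hε hε1 => ?_⟩
  obtain ⟨C, E, hC, HB⟩ := Pool.Agent.TH899.UG.box_pow K 4
  obtain ⟨R, hR⟩ := exists_nat_ge (C / ε ^ E)
  have hR1 : 1 ≤ R := by
    by_contra h
    have h1 : R = 0 := by omega
    rw [h1, Nat.cast_zero] at hR
    have h2 : 0 < C / ε ^ E := by positivity
    linarith
  refine ⟨R, hR1, ?_⟩
  filter_upwards [HC] with N hN
  intro β P Q hP hQ hPQ hP60 hβ hPb hloc hno
  set G : ℕ → Prop := fun c => (N : ℝ) / (Real.log N) ^ B₀ ≤ golc N (-1) (c : ℤ) with hG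
  have hPne : P.Nonempty := by rw [← card_pos, hP]; omega
  obtain ⟨x0, hx0⟩ := hPne
  have hQ60 : ∀ y ∈ Q, y < x0 := fun y hy => hPQ _ hx0 _ hy
  set V : Fin 4 → Finset ℕ := ![P, Q, P, Q] with hV
  have hVc : ∀ i, (V i).card = R := by
    intro i
    fin_cases i
    · exact hP
    · exact hQ
    · exact hP
    · exact hQ
  set B := (Fintype.piFinset V).filter (fun f => ∀ g g' : Fin 4, (g = 0 ∨ g = 1) →
    (g' = 2 ∨ g' = 3) → ¬ G (β + f g' + f g)) with hB
  have hBlt : (B.card : ℝ) < ε * (R : ℝ) ^ 4 := by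
    by_contra hcon
    rw [not_lt] at hcon
    have hprod : ∏ i, ((V i).card : ℝ) = (R : ℝ) ^ 4 := by
      simp only [hVc, prod_const, card_univ, Fintype.card_fin]
    obtain ⟨A, hA1, hA2⟩ := HB ε hε hε1 ℕ V (fun i => by rw [hVc]; exact hR) B
      (filter_subset _ _) (by rw [hprod]; exact hcon)
    have hmem : ∀ g i, A g i ∈ V g := by
      intro g i
      have h1 := hA2 (fun _ => i)
      have h2 := (mem_filter.1 h1).1
      rw [Fintype.mem_piFinset] at h2
      exact h2 g
    have hPQ' : ∀ g i, A g i ∈ P ∪ Q := by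
      intro g i
      have h1 := hmem g i
      rw [hV] at h1
      fin_cases g
      · exact mem_union_left _ h1
      · exact mem_union_right _ h1
      · exact mem_union_left _ h1
      · exact mem_union_right _ h1
    have hle0 : ∀ x ∈ P ∪ Q, ∃ z ∈ P, x ≤ z := by
      intro x hx
      rcases mem_union.1 hx with h | h
      · exact ⟨x, h, le_rfl⟩
      · exact ⟨x0, hx0, (hQ60 x h).le⟩
    rcases hN β A hA1 (fun i j => hPQ _ (hmem 0 j) _ (hmem 1 i))
      (fun i j => hPQ _ (hmem 2 j) _ (hmem 3 i))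
      (fun g i => by
        obtain ⟨z, hz, h1⟩ := hle0 _ (hPQ' g i)
        have := hP60 z hz
        omega) hβ
      (fun g i => by
        obtain ⟨z, hz, h1⟩ := hle0 _ (hPQ' g i)
        have := hPb z hz
        omega)
      (fun p hp hpK => by
        obtain ⟨n, hn⟩ := hloc p hp hpK
        refine ⟨n, fun g i => ?_⟩
        obtain ⟨h1, h2⟩ := hn _ (hPQ' g i)
        unfold sl bs
        split_ifs
        · rw [one_mul, zero_add]
          exact h1
        · exact h2) with ⟨i, j, h⟩ | ⟨i, j, h⟩ | ⟨g, g', hg, hg', i, j, h⟩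
    · exact absurd h (not_le.2 (hno _ (hmem 0 i) _ (hmem 1 j)))
    · exact absurd h (not_le.2 (hno _ (hmem 2 i) _ (hmem 3 j)))
    · have h1 := hA2 (Function.update (fun _ => i) g' j)
      have h2 := (mem_filter.1 h1).2 g g' hg hg'
      have hgg : g ≠ g' := by
        rcases hg with h | h <;> rcases hg' with h' | h' <;> rw [h, h'] <;> decide
      simp only [Function.update_self, Function.update_of_ne hgg] at h2
      apply h2
      rw [hG]
      show (N : ℝ) / (Real.log N) ^ B₀ ≤ golc N (-1) ((β + A g' j + A g i : ℕ) : ℤ)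
      push_cast
      exact h
  -- pairs without the property
  set NG : Finset (ℕ × ℕ) := (P ×ˢ Q).filter (fun z : ℕ × ℕ => ¬ G (β + z.2 + z.1)) with hNG
  have hNGc : prs G β P Q + NG.card = R * R := by
    have h1 := card_filter_add_card_filter_not (s := P ×ˢ Q)
      (fun z : ℕ × ℕ => G (β + z.2 + z.1))
    rw [card_product, hP, hQ] at h1
    exact h1
  have hinj : NG.card * NG.card ≤ ((Fintype.piFinset V).filter (fun f =>
      ¬ G (β + f 3 + f 0) ∧ ¬ G (β + f 2 + f 1))).card := by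
    rw [← card_product]
    refine card_le_card_of_injOn (fun w => (![w.1.1, w.2.2, w.2.1, w.1.2] : Fin 4 → ℕ)) ?_ ?_
    · intro w hw
      obtain ⟨h1, h2⟩ := mem_product.1 (mem_coe.1 hw)
      obtain ⟨h3, h4⟩ := mem_filter.1 h1
      obtain ⟨h5, h6⟩ := mem_filter.1 h2
      obtain ⟨h7, h8⟩ := mem_product.1 h3
      obtain ⟨h9, h10⟩ := mem_product.1 h5
      refine mem_coe.2 (mem_filter.2 ⟨?_, ?_, ?_⟩)
      · rw [Fintype.mem_piFinset]
        intro i
        fin_cases i
        · exact h7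
        · exact h10
        · exact h9
        · exact h8
      · exact h4
      · have e : β + w.2.1 + w.2.2 = β + w.2.2 + w.2.1 := by ring
        show ¬ G (β + w.2.1 + w.2.2)
        rw [e]
        exact h6
    · rintro ⟨⟨a, b⟩, c, d⟩ _ ⟨⟨a', b'⟩, c', d'⟩ _ hww
      have k0 := congrFun hww 0
      have k1 := congrFun hww 1
      have k2 := congrFun hww 2
      have k3 := congrFun hww 3
      simp at k0 k1 k2 k3
      simp [k0, k1, k2, k3]
  have hcov : ((Fintype.piFinset V).filter (fun f =>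
      ¬ G (β + f 3 + f 0) ∧ ¬ G (β + f 2 + f 1))).card ≤ B.card +
      (prs G β P P * (R * R) + prs G β Q Q * (R * R)) := by
    have h02 := cnt V R hVc (fun x y => G (β + y + x)) 0 1 2 3 (by decide)
    have h13 := cnt V R hVc (fun x y => G (β + y + x)) 1 0 3 2 (by decide)
    have hsub : (Fintype.piFinset V).filter (fun f =>
      ¬ G (β + f 3 + f 0) ∧ ¬ G (β + f 2 + f 1)) ⊆ B ∪
        (((Fintype.piFinset V).filter (fun f => G (β + f 2 + f 0))) ∪
        ((Fintype.piFinset V).filter (fun f => G (β + f 3 + f 1)))) := by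
      intro f hf
      obtain ⟨hf0, hf1, hf2⟩ := mem_filter.1 hf
      by_cases h1 : G (β + f 2 + f 0)
      · exact mem_union_right _ (mem_union_left _ (mem_filter.2 ⟨hf0, h1⟩))
      by_cases h2 : G (β + f 3 + f 1)
      · exact mem_union_right _ (mem_union_right _ (mem_filter.2 ⟨hf0, h2⟩))
      refine mem_union_left _ (mem_filter.2 ⟨hf0, ?_⟩)
      intro g g' hg hg'
      rcases hg with h | h <;> rcases hg' with h' | h' <;> rw [h, h']
      · exact h1
      · exact hf1
      · exact hf2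
      · exact h2
    have h4 := card_le_card hsub
    have h5 := card_union_le B
        (((Fintype.piFinset V).filter (fun f => G (β + f 2 + f 0))) ∪
        ((Fintype.piFinset V).filter (fun f => G (β + f 3 + f 1))))
    have h6 := card_union_le
        ((Fintype.piFinset V).filter (fun f => G (β + f 2 + f 0)))
        ((Fintype.piFinset V).filter (fun f => G (β + f 3 + f 1)))
    have e02 : ((V 0 ×ˢ V 2).filter (fun z : ℕ × ℕ => G (β + z.2 + z.1))).card =
        prs G β P P := rfl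
    have e13 : ((V 1 ×ˢ V 3).filter (fun z : ℕ × ℕ => G (β + z.2 + z.1))).card =
        prs G β Q Q := rfl
    rw [e02] at h02
    rw [e13] at h13
    omega
  have h1 : (R : ℝ) ^ 2 - prs G β P Q = NG.card := by
    have h2 : ((prs G β P Q + NG.card : ℕ) : ℝ) = ((R * R : ℕ) : ℝ) := by rw [hNGc]
    push_cast at h2
    rw [pow_two]
    linarith
  rw [h1]
  have h2 : ((NG.card * NG.card : ℕ) : ℝ) ≤ ((B.card +
      (prs G β P P * (R * R) + prs G β Q Q * (R * R)) : ℕ) : ℝ) := by
    exact_mod_cast hinj.trans hcov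
  push_cast at h2
  calc (NG.card : ℝ) ^ 2 = (NG.card : ℝ) * NG.card := by ring
    _ ≤ _ := h2
    _ ≤ ε * (R : ℝ) ^ 4 + ((prs G β P P : ℝ) * (R * R) + prs G β Q Q * (R * R)) := by linarith
    _ = _ := by ring

end Pool.Agent.U849.GP
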