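import Mathlib
import Pool.Agent.U849.GP.Box

/-! Goldbach or Polignac: the average over the translations. -/

set_option autoImplicit false

namespace Pool.Agent.U849.GP

open Finset Filter Topology
open Pool.Agent.TH899.UG.GD (difc golc loc cntT)

open Classical in
/-- the sum over the translations -/
theorem sumT (G : ℕ → Prop) (b : ℕ) (𝒯 X Y 𝒢 : Finset ℕ)
    (h : ∀ t ∈ 𝒯, ∀ x ∈ X, ∀ y ∈ Y, G (b + t + y + x) → b + t + y + x ∈ 𝒢) :
    ∑ t ∈ 𝒯, prs G (b + t) X Y ≤ X.card * Y.card * 𝒢.card := by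
  have h1 : ∑ t ∈ 𝒯, prs G (b + t) X Y =
      ∑ z ∈ X ×ˢ Y, (𝒯.filter (fun t => G (b + t + z.2 + z.1))).card := by
    unfold prs
    simp only [card_filter]
    exact Finset.sum_comm
  rw [h1]
  have h2 : ∀ z ∈ X ×ˢ Y, (𝒯.filter (fun t => G (b + t + z.2 + z.1))).card ≤ 𝒢.card := by
    intro z hz
    obtain ⟨hx, hy⟩ := mem_product.1 hz
    refine card_le_card_of_injOn (fun t => b + t + z.2 + z.1) ?_ ?_
    · intro t ht
      obtain ⟨ht1, ht2⟩ := mem_filter.1 (mem_coe.1 ht)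
      exact mem_coe.2 (h t ht1 _ hx _ hy ht2)
    · intro t _ t' _ htt
      have h5 : b + t + z.2 + z.1 = b + t' + z.2 + z.1 := htt
      omega
  calc ∑ z ∈ X ×ˢ Y, (𝒯.filter (fun t => G (b + t + z.2 + z.1))).card
      ≤ (X ×ˢ Y).card • 𝒢.card := sum_le_card_nsmul _ _ _ h2
    _ = X.card * Y.card * 𝒢.card := by rw [card_product, smul_eq_mul]

/-- the number of the even translations -/
theorem cnt2 (E b : ℕ) : E / 2 ≤ ((range E).filter (fun t => (b + t) % 2 = 0)).card := by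
  classical
  have h1 : (range (E / 2)).card ≤ ((range E).filter (fun t => (b + t) % 2 = 0)).card := by
    refine card_le_card_of_injOn (fun j => 2 * j + b % 2) ?_ ?_
    · intro j hj
      have hj' := mem_range.1 (mem_coe.1 hj)
      refine mem_coe.2 (mem_filter.2 ⟨mem_range.2 ?_, ?_⟩)
      · show 2 * j + b % 2 < E
        omega
      · show (b + (2 * j + b % 2)) % 2 = 0
        omega
    · intro j _ j' _ hjj
      have h2 : 2 * j + b % 2 = 2 * j' + b % 2 := hjj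
      omega
  rwa [card_range] at h1

/-- linear consequence of the quadratic inequality -/
theorem lin {r pp qq pq ε : ℝ} (hr : 0 < r) (h : (r - pq) ^ 2 ≤ (pp + qq) * r + ε * r ^ 2) (a₀ : ℝ) :
    (1 - a₀ ^ 2 - ε) * r ≤ pp + qq + 2 * (1 - a₀) * pq := by
  have h1 : (1 - a₀ ^ 2 - ε) * r * r ≤ (pp + qq + 2 * (1 - a₀) * pq) * r := by
    nlinarith [sq_nonneg (pq - a₀ * r)]
  exact le_of_mul_le_mul_right h1 hr

/-- numerical part, equal classes -/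
theorem numA {T g ε ε₁ D H s : ℝ} (hs : s * s = 3) (hs1 : 1 ≤ s) (hs2 : s ≤ 2) (hε : 0 < ε)
    (hε₁ : ε₁ ≤ ε) (hT0 : 0 ≤ T) (hg : 0 ≤ g) (hH0 : 0 ≤ H) (hD : 0 ≤ D) (hεH : 4 * D ≤ ε * H)
    (hT : H / 2 - 2 * D ≤ T) (h : T * (1 - (2 - s) ^ 2 - ε₁) ≤ 2 * s * g) :
    ((2 - s) / 2 - ε) * H ≤ g := by
  have hc6 : 1 - (2 - s) ^ 2 = 2 * s * (2 - s) := by linarith [hs]
  have hc7 : T * (2 - s - ε / 2) ≤ g := by
    have h1 : T * ε₁ ≤ T * ε := mul_le_mul_of_nonneg_left hε₁ hT0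
    have h2 : 2 * s * (T * (2 - s - ε / 2)) ≤ 2 * s * g := by
      have h3 : 2 * s * (T * (2 - s - ε / 2)) = T * (1 - (2 - s) ^ 2) - s * (T * ε) := by
        rw [hc6]; ring
      rw [h3]
      have h4 : 1 * (T * ε) ≤ s * (T * ε) := mul_le_mul_of_nonneg_right hs1 (by positivity)
      linarith
    exact le_of_mul_le_mul_left h2 (by linarith)
  by_cases hsm : 2 - s - ε / 2 ≤ 0
  · have h1 : ((2 - s) / 2 - ε) * H ≤ 0 :=
      mul_nonpos_of_nonpos_of_nonneg (by linarith) hH0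
    linarith
  push Not at hsm
  have hc9 : (H / 2 - 2 * D) * (2 - s - ε / 2) ≤ g :=
    (mul_le_mul_of_nonneg_right hT hsm.le).trans hc7
  have hc10 : D * (2 - s - ε / 2) ≤ D * 1 := mul_le_mul_of_nonneg_left (by linarith) hD
  have e : (H / 2 - 2 * D) * (2 - s - ε / 2) =
    (2 - s) / 2 * H - ε * H / 4 - 2 * (D * (2 - s - ε / 2)) := by ring
  rw [e] at hc9
  have e2 : ((2 - s) / 2 - ε) * H = (2 - s) / 2 * H - ε * H := by ring
  rw [e2]
  linarith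

/-- numerical part, different classes -/
theorem numB {T g ε ε₁ D H : ℝ} (hε : 0 < ε)
    (hε₁ : ε₁ ≤ ε) (hT0 : 0 ≤ T) (hg : 0 ≤ g) (hH0 : 0 ≤ H) (hD : 0 ≤ D) (hεH : 4 * D ≤ ε * H)
    (hT : H / 6 - 2 * D ≤ T) (h : T * (3 / 4 - ε₁) ≤ g) : (1 / 8 - ε) * H ≤ g := by
  have hc7 : T * (3 / 4 - ε) ≤ g := (mul_le_mul_of_nonneg_left (by linarith) hT0).trans h
  by_cases hsm : 3 / 4 - ε ≤ 0
  · have h1 : (1 / 8 - ε) * H ≤ 0 :=
      mul_nonpos_of_nonpos_of_nonneg (by linarith) hH0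
    linarith
  push Not at hsm
  have hc9 : (H / 6 - 2 * D) * (3 / 4 - ε) ≤ g :=
    (mul_le_mul_of_nonneg_right hT hsm.le).trans hc7
  have hc10 : D * (3 / 4 - ε) ≤ D * 1 := mul_le_mul_of_nonneg_left (by linarith) hD
  have e : (H / 6 - 2 * D) * (3 / 4 - ε) =
    1 / 8 * H - ε * H / 6 - 2 * (D * (3 / 4 - ε)) := by ring
  rw [e] at hc9
  have e2 : (1 / 8 - ε) * H = 1 / 8 * H - ε * H := by ring
  rw [e2]
  linarith

open Classical in
/-- **The windows.** -/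
theorem window (ε : ℝ) (hε : 0 < ε) : ∃ K B R C : ℕ, 1 ≤ K ∧ 1 ≤ R ∧ ∀ᶠ N : ℕ in atTop,
    ∀ (D : ℕ) (P Q : Finset ℕ) (cP cQ : ℤ), C * D ≤ N → P.card = R → Q.card = R →
      (∀ x ∈ P, ∀ y ∈ Q, y < x) → (∀ x ∈ P, x ≤ D) →
      (∀ x ∈ P, (((4 * K + 3).factorial : ℕ) : ℤ) ∣ x - cP) →
      (∀ x ∈ Q, (((4 * K + 3).factorial : ℕ) : ℤ) ∣ x - cQ) → 2 ∣ cP → 2 ∣ cQ →
      (∀ x ∈ P, ∀ y ∈ Q, (difc N (x - y) : ℝ) < (N : ℝ) / (Real.log N) ^ B) →
      ∀ b H : ℕ, 13 * N ≤ 24 * b → 10 * b ≤ 9 * N → C * D ≤ H → C * H ≤ N →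
        (1 / 8 - ε) * H ≤ (((Ico b (b + H)).filter (fun c : ℕ =>
          (N : ℝ) / (Real.log N) ^ B ≤ golc N (-1) (c : ℤ))).card : ℝ) ∧
        (3 ∣ cP - cQ → ((2 - √3) / 2 - ε) * H ≤ (((Ico b (b + H)).filter (fun c : ℕ =>
          (N : ℝ) / (Real.log N) ^ B ≤ golc N (-1) (c : ℤ))).card : ℝ)) := by
  obtain ⟨K, B, hK, HP⟩ := per_t
  set ε₁ : ℝ := min ε 1 with hε₁
  have hε₁0 : 0 < ε₁ := lt_min hε one_pos
  have hε₁1 : ε₁ ≤ 1 := min_le_right _ _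
  have hε₁6 : ε₁ ≤ ε := min_le_left _ _
  obtain ⟨R, hR1, HP⟩ := HP ε₁ hε₁0 hε₁1
  set W : ℕ := (4 * K + 3).factorial with hWd
  obtain ⟨C₀, hC₀⟩ := exists_nat_ge (4 / ε)
  set C : ℕ := C₀ + 240 with hC
  refine ⟨K, B, R, C, hK, hR1, ?_⟩
  filter_upwards [HP] with N hN
  intro D P Q cP cQ hCN hPc hQc hPQ hPb hPW hQW hcP hcQ hbad b H hb1 hb2 hH1 hH2
  have hPne : P.Nonempty := by rw [← card_pos]; omega
  have hQne : Q.Nonempty := by rw [← card_pos]; omega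
  obtain ⟨z0, hz0⟩ := hPne
  obtain ⟨y0, hy0⟩ := hQne
  have hD1 : 1 ≤ D := by
    have h1 := hPQ z0 hz0 y0 hy0
    have h2 := hPb z0 hz0
    omega
  have hCv : 240 * D ≤ C * D := Nat.mul_le_mul_right _ (by omega)
  have hCH : 240 * H ≤ C * H := Nat.mul_le_mul_right _ (by omega)
  set G : ℕ → Prop := fun c => (N : ℝ) / (Real.log N) ^ B ≤ golc N (-1) (c : ℤ) with hG
  set 𝒢 : Finset ℕ := (Ico b (b + H)).filter (fun c : ℕ => G c) with h𝒢
  have hQb : ∀ x ∈ Q, x ≤ D := by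
    intro x hx
    have h1 := hPQ z0 hz0 x hx
    have h2 := hPb z0 hz0
    omega
  -- the inequality for one translation
  have hone : ∀ t : ℕ, t < H - 2 * D → 2 ∣ b + t →
      (3 ∣ cP - cQ ∨ (3 : ℤ) ∣ ((b + t : ℕ) : ℤ) - (1 - (-1)) * (cP + cQ)) → ∀ a₀ : ℝ,
      (1 - a₀ ^ 2 - ε₁) * (R : ℝ) ^ 2 ≤ (prs G (b + t) P P : ℝ) +
        prs G (b + t) Q Q + 2 * (1 - a₀) * prs G (b + t) P Q := by
    intro t ht2 ht3 ht4 a₀
    have hR0 : (0 : ℝ) < (R : ℝ) ^ 2 := by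
      have : (0 : ℝ) < R := by exact_mod_cast hR1
      positivity
    refine lin hR0 ?_ a₀
    have h := hN (b + t) P Q hPc hQc hPQ ?_ ?_ ?_ ?_ ?_
    · refine h.trans (le_of_eq ?_)
      ring
    · intro x hx
      have := hPb x hx
      omega
    · omega
    · intro x hx
      have := hPb x hx
      omega
    · intro p hp hpK
      have hpW : (p : ℤ) ∣ W := by exact_mod_cast hp.dvd_factorial.2 (by omega)
      obtain ⟨n, h1, h2, h3, h4⟩ := loc (-1) (Or.inr rfl) ((b + t : ℕ) : ℤ) cP cQ hcP hcQ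
        (by exact_mod_cast ht3) ht4 p hp
      refine ⟨n, fun x hx => ?_⟩
      have key : ∀ c : ℤ, (W : ℤ) ∣ x - c → ¬ ((p : ℤ) ∣ n + c) →
          ¬ ((p : ℤ) ∣ -1 * n + (((b + t : ℕ) : ℤ) + c)) →
          ¬ ((p : ℤ) ∣ n + x) ∧ ¬ ((p : ℤ) ∣ -1 * n + (((b + t : ℕ) : ℤ) + x)) := by
        intro c hc k1 k2
        have k3 := hpW.trans hc
        refine ⟨fun k4 => k1 ?_, fun k4 => k2 ?_⟩
        · have e : n + c = (n + x) - (x - c) := by ring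
          rw [e]; exact dvd_sub k4 k3
        · have e : -1 * n + (((b + t : ℕ) : ℤ) + c) =
            (-1 * n + (((b + t : ℕ) : ℤ) + x)) - (x - c) := by ring
          rw [e]; exact dvd_sub k4 k3
      rcases mem_union.1 hx with h | h
      · exact key cP (hPW x h) h1 h3
      · exact key cQ (hQW x h) h2 h4
    · exact hbad
  have hmemG : ∀ t : ℕ, t < H - 2 * D → ∀ x y : ℕ, x ≤ D → y ≤ D →
      G (b + t + y + x) → b + t + y + x ∈ 𝒢 := by
    intro t ht2 x y hx hy hGG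
    exact mem_filter.2 ⟨mem_Ico.2 ⟨by omega, by omega⟩, hGG⟩
  have hDr : (1 : ℝ) ≤ D := by exact_mod_cast hD1
  have hHr : (C : ℝ) * D ≤ H := by exact_mod_cast hH1
  have hCr : (4 / ε : ℝ) ≤ C := by
    rw [hC]; push_cast; linarith
  have hεH : 4 * (D : ℝ) ≤ ε * H := by
    have h2 : (4 / ε) * (D : ℝ) ≤ H :=
      (mul_le_mul_of_nonneg_right hCr (by linarith)).trans hHr
    have h3 := mul_le_mul_of_nonneg_left h2 hε.le
    have e : ε * (4 / ε * (D : ℝ)) = 4 * D := by field_simp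
    rw [e] at h3
    exact h3
  have hH0 : (0 : ℝ) ≤ H := Nat.cast_nonneg _
  have hR0 : (0 : ℝ) < (R : ℝ) ^ 2 := by
    have : (0 : ℝ) < R := by exact_mod_cast hR1
    positivity
  have h3le : √3 ≤ 2 := by
    rw [show (2 : ℝ) = √4 by rw [show (4 : ℝ) = 2 ^ 2 by norm_num, Real.sqrt_sq (by norm_num)]]
    exact Real.sqrt_le_sqrt (by norm_num)
  have h3sq : √3 * √3 = 3 := Real.mul_self_sqrt (by norm_num)
  have h3ge : (1 : ℝ) ≤ √3 := by
    rw [show (1 : ℝ) = √1 by simp]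
    exact Real.sqrt_le_sqrt (by norm_num)
  -- the case of equal classes modulo three
  have hequal : 3 ∣ cP - cQ → ((2 - √3) / 2 - ε) * H ≤ (𝒢.card : ℝ) := by
    intro hx
    set 𝒯 := (range (H - 2 * D)).filter (fun t => (b + t) % 2 = 0) with h𝒯
    have hT : ∀ t ∈ 𝒯, t < H - 2 * D ∧ 2 ∣ b + t := by
      intro t ht
      obtain ⟨h1, h2⟩ := mem_filter.1 ht
      exact ⟨mem_range.1 h1, by omega⟩
    have key : ∀ X Y : Finset ℕ, (∀ x ∈ X, x ≤ D) → (∀ y ∈ Y, y ≤ D) → X.card = R →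
        Y.card = R → ((∑ t ∈ 𝒯, prs G (b + t) X Y : ℕ) : ℝ) ≤ (R : ℝ) ^ 2 * 𝒢.card := by
      intro X Y hX hY hXc hYc
      have h1 := sumT G b 𝒯 X Y 𝒢 (fun t ht x hx y hy =>
        hmemG t (hT t ht).1 x y (hX x hx) (hY y hy))
      rw [hXc, hYc] at h1
      have h2 : ((∑ t ∈ 𝒯, prs G (b + t) X Y : ℕ) : ℝ) ≤ ((R * R * 𝒢.card : ℕ) : ℝ) := by
        exact_mod_cast h1
      refine h2.trans (le_of_eq ?_)
      push_cast; ring
    have k1 := key P P hPb hPb hPc hPc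
    have k2 := key Q Q hQb hQb hQc hQc
    have k3 := key P Q hPb hQb hPc hQc
    have hsum : ∑ t ∈ 𝒯, ((1 - (2 - √3) ^ 2 - ε₁) * (R : ℝ) ^ 2) ≤ ∑ t ∈ 𝒯,
        ((prs G (b + t) P P : ℝ) + prs G (b + t) Q Q + 2 * (1 - (2 - √3)) * prs G (b + t) P Q) :=
      sum_le_sum fun t ht => hone t (hT t ht).1 (hT t ht).2 (Or.inl hx) _
    rw [sum_const, nsmul_eq_mul, sum_add_distrib, sum_add_distrib, ← mul_sum] at hsum
    push_cast at k1 k2 k3
    have hc2 : (((H - 2 * D) / 2 : ℕ) : ℝ) ≤ (𝒯.card : ℝ) := by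
      exact_mod_cast cnt2 (H - 2 * D) b
    have hc3 : ((H : ℝ) - 2 * D) / 2 - 1 ≤ (((H - 2 * D) / 2 : ℕ) : ℝ) := by
      have h2 : H ≤ 2 * (((H - 2 * D) / 2 : ℕ)) + 2 + 2 * D := by omega
      have h3 : (H : ℝ) ≤ 2 * (((H - 2 * D) / 2 : ℕ) : ℝ) + 2 + 2 * D := by exact_mod_cast h2
      linarith
    have hc4 : (𝒯.card : ℝ) * (1 - (2 - √3) ^ 2 - ε₁) * (R : ℝ) ^ 2 ≤
        (2 * √3 * 𝒢.card) * (R : ℝ) ^ 2 := by
      have h1 : (0 : ℝ) ≤ 2 * (1 - (2 - √3)) := by linarith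
      have h2 := mul_le_mul_of_nonneg_left k3 h1
      calc (𝒯.card : ℝ) * (1 - (2 - √3) ^ 2 - ε₁) * (R : ℝ) ^ 2
          = (𝒯.card : ℝ) * ((1 - (2 - √3) ^ 2 - ε₁) * (R : ℝ) ^ 2) := by ring
        _ ≤ _ := hsum
        _ ≤ (R : ℝ) ^ 2 * 𝒢.card + (R : ℝ) ^ 2 * 𝒢.card +
            2 * (1 - (2 - √3)) * ((R : ℝ) ^ 2 * 𝒢.card) := by linarith
        _ = _ := by ring
    have hc5 : (𝒯.card : ℝ) * (1 - (2 - √3) ^ 2 - ε₁) ≤ 2 * √3 * 𝒢.card :=
      le_of_mul_le_mul_right hc4 hR0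
    exact numA h3sq h3ge h3le hε hε₁6 (Nat.cast_nonneg _) (Nat.cast_nonneg _) hH0 (by linarith) hεH
      (by linarith) hc5
  by_cases hx : (3 : ℤ) ∣ cP - cQ
  · refine ⟨?_, hequal⟩
    refine le_trans (mul_le_mul_of_nonneg_right ?_ hH0) (hequal hx)
    have h1 : √3 ≤ 7 / 4 := by
      rw [Real.sqrt_le_left (by norm_num)]
      norm_num
    linarith
  · refine ⟨?_, fun h => absurd h hx⟩
    -- different classes modulo three
    obtain ⟨r, hr⟩ : ∃ r : ℤ, r = (4 * ((1 - (-1)) * (cP + cQ))) % 6 := ⟨_, rfl⟩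
    have hr0 : 0 ≤ r := by rw [hr]; exact Int.emod_nonneg _ (by norm_num)
    have hr6 : r < 6 := by rw [hr]; exact Int.emod_lt_of_pos _ (by norm_num)
    have hr2 : 2 ∣ r := by omega
    have hr3 : (3 : ℤ) ∣ r - (1 - (-1)) * (cP + cQ) := by
      generalize (1 - (-1)) * (cP + cQ) = s at hr
      omega
    set 𝒯 := (Ico 0 (H - 2 * D)).filter (fun t => (b + t) % 6 = r.toNat) with h𝒯
    have hT : ∀ t ∈ 𝒯, t < H - 2 * D ∧ (b + t) % 6 = r.toNat := by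
      intro t ht
      obtain ⟨h1, h2⟩ := mem_filter.1 ht
      exact ⟨(mem_Ico.1 h1).2, h2⟩
    have hTd : ∀ t ∈ 𝒯, 2 ∣ b + t ∧ (3 : ℤ) ∣ ((b + t : ℕ) : ℤ) - r := by
      intro t ht
      have h2 := (hT t ht).2
      constructor
      · omega
      · omega
    have h3W : (3 : ℤ) ∣ W := by
      exact_mod_cast Nat.prime_three.dvd_factorial.2 (by omega)
    have key : ∀ (X Y : Finset ℕ) (cX cY : ℤ), (∀ x ∈ X, x ≤ D) → (∀ y ∈ Y, y ≤ D) → X.card = R →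
        Y.card = R → (∀ x ∈ X, (W : ℤ) ∣ x - cX) → (∀ y ∈ Y, (W : ℤ) ∣ y - cY) →
        ((∑ t ∈ 𝒯, prs G (b + t) X Y : ℕ) : ℝ) ≤
          (R : ℝ) ^ 2 * (𝒢.filter (fun c : ℕ => (3 : ℤ) ∣ (c : ℤ) - (r + cY + cX))).card := by
      intro X Y cX cY hX hY hXc hYc hXW hYW
      have h1 := sumT G b 𝒯 X Y (𝒢.filter (fun c : ℕ => (3 : ℤ) ∣ (c : ℤ) - (r + cY + cX)))
        (fun t ht x hx y hy hGG => by
          obtain ⟨k2, k3⟩ := hT t ht
          refine mem_filter.2 ⟨hmemG t k2 x y (hX x hx) (hY y hy) hGG, ?_⟩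
          have k5 := h3W.trans (hXW x hx)
          have k6 := h3W.trans (hYW y hy)
          have k7 := (hTd t ht).2
          push_cast at k7 ⊢
          have e : ((b : ℤ) + t + y + x) - (r + cY + cX) =
            ((b : ℤ) + t - r) + (y - cY) + (x - cX) := by ring
          rw [e]
          exact dvd_add (dvd_add k7 k6) k5)
      rw [hXc, hYc] at h1
      have h2 : ((∑ t ∈ 𝒯, prs G (b + t) X Y : ℕ) : ℝ) ≤
          ((R * R * (𝒢.filter (fun c : ℕ => (3 : ℤ) ∣ (c : ℤ) - (r + cY + cX))).card : ℕ) : ℝ) := by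
        exact_mod_cast h1
      refine h2.trans (le_of_eq ?_)
      push_cast; ring
    have k1 := key P P cP cP hPb hPb hPc hPc hPW hPW
    have k2 := key Q Q cQ cQ hQb hQb hQc hQc hQW hQW
    have k3 := key P Q cP cQ hPb hQb hPc hQc hPW hQW
    have hdis : (𝒢.filter (fun c : ℕ => (3 : ℤ) ∣ (c : ℤ) - (r + cP + cP))).card +
        (𝒢.filter (fun c : ℕ => (3 : ℤ) ∣ (c : ℤ) - (r + cQ + cQ))).card +
        (𝒢.filter (fun c : ℕ => (3 : ℤ) ∣ (c : ℤ) - (r + cQ + cP))).card ≤ 𝒢.card := by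
      rw [← card_union_of_disjoint (by
        rw [Finset.disjoint_left]
        intro c h1 h2
        have h3 := (mem_filter.1 h1).2
        have h4 := (mem_filter.1 h2).2
        apply hx
        omega), ← card_union_of_disjoint (by
        rw [Finset.disjoint_left]
        intro c h1 h2
        have h4 := (mem_filter.1 h2).2
        rcases mem_union.1 h1 with h1 | h1
        · have h3 := (mem_filter.1 h1).2
          apply hx
          omega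
        · have h3 := (mem_filter.1 h1).2
          apply hx
          omega)]
      apply card_le_card
      intro c hc
      rcases mem_union.1 hc with h | h
      · rcases mem_union.1 h with h | h
        · exact (mem_filter.1 h).1
        · exact (mem_filter.1 h).1
      · exact (mem_filter.1 h).1
    have hdisr : ((𝒢.filter (fun c : ℕ => (3 : ℤ) ∣ (c : ℤ) - (r + cP + cP))).card : ℝ) +
        (𝒢.filter (fun c : ℕ => (3 : ℤ) ∣ (c : ℤ) - (r + cQ + cQ))).card +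
        (𝒢.filter (fun c : ℕ => (3 : ℤ) ∣ (c : ℤ) - (r + cQ + cP))).card ≤ 𝒢.card := by
      exact_mod_cast hdis
    have hsum : ∑ t ∈ 𝒯, ((1 - (1 / 2) ^ 2 - ε₁) * (R : ℝ) ^ 2) ≤ ∑ t ∈ 𝒯,
        ((prs G (b + t) P P : ℝ) + prs G (b + t) Q Q + 2 * (1 - 1 / 2) * prs G (b + t) P Q) := by
      refine sum_le_sum fun t ht => hone t (hT t ht).1 (hTd t ht).1 (Or.inr ?_) _
      have k7 := (hTd t ht).2
      have e : ((b + t : ℕ) : ℤ) - (1 - (-1)) * (cP + cQ) =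
        (((b + t : ℕ) : ℤ) - r) + (r - (1 - (-1)) * (cP + cQ)) := by ring
      rw [e]
      exact dvd_add k7 hr3
    rw [sum_const, nsmul_eq_mul, sum_add_distrib, sum_add_distrib, ← mul_sum] at hsum
    push_cast at k1 k2 k3
    have hc4 : (𝒯.card : ℝ) * (3 / 4 - ε₁) * (R : ℝ) ^ 2 ≤ (𝒢.card : ℝ) * (R : ℝ) ^ 2 := by
      have h5 := mul_le_mul_of_nonneg_left hdisr hR0.le
      calc (𝒯.card : ℝ) * (3 / 4 - ε₁) * (R : ℝ) ^ 2
          = (𝒯.card : ℝ) * ((1 - (1 / 2) ^ 2 - ε₁) * (R : ℝ) ^ 2) := by ring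
        _ ≤ _ := hsum
        _ ≤ (R : ℝ) ^ 2 * ((𝒢.filter (fun c : ℕ => (3 : ℤ) ∣ (c : ℤ) - (r + cP + cP))).card +
            (𝒢.filter (fun c : ℕ => (3 : ℤ) ∣ (c : ℤ) - (r + cQ + cQ))).card +
            (𝒢.filter (fun c : ℕ => (3 : ℤ) ∣ (c : ℤ) - (r + cQ + cP))).card) := by linarith
        _ ≤ _ := h5
        _ = _ := by ring
    have hc5 : (𝒯.card : ℝ) * (3 / 4 - ε₁) ≤ 𝒢.card := le_of_mul_le_mul_right hc4 hR0
    have hc2 : (((H - 2 * D - 0) / 6 : ℕ) : ℝ) ≤ (𝒯.card : ℝ) := by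
      exact_mod_cast cntT 0 (H - 2 * D) b r.toNat (by omega)
    have hc3 : ((H : ℝ) - 2 * D) / 6 - 1 ≤ (((H - 2 * D - 0) / 6 : ℕ) : ℝ) := by
      have h2 : H ≤ 6 * (((H - 2 * D - 0) / 6 : ℕ)) + 6 + 2 * D := by omega
      have h3 : (H : ℝ) ≤ 6 * (((H - 2 * D - 0) / 6 : ℕ) : ℝ) + 6 + 2 * D := by exact_mod_cast h2
      linarith
    exact numB hε hε₁6 (Nat.cast_nonneg _) (Nat.cast_nonneg _) hH0 (by linarith) hεH
      (by linarith) hc5

end Pool.Agent.U849.GP
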