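import Mathlib
import Pool.Agent.U849.GP.Window

/-! Goldbach or Polignac: the main theorem. -/

set_option autoImplicit false

namespace Pool.Agent.U849.GP

open Finset Filter Topology
open Pool.Agent.TH899.UG.GD (difc golc)

/-- one half of one set lies below one half of the other -/
theorem sep (M : ℕ) (X Y : Finset ℕ) (hX : X.card = 2 * M) (hY : Y.card = 2 * M) :
    ∃ P Q : Finset ℕ, P.card = M ∧ Q.card = M ∧ (∀ x ∈ P, ∀ y ∈ Q, y < x) ∧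
      ((P ⊆ X ∧ Q ⊆ Y) ∨ (P ⊆ Y ∧ Q ⊆ X)) := by
  classical
  rcases Nat.eq_zero_or_pos M with rfl | hM
  · exact ⟨∅, ∅, rfl, rfl, by simp, Or.inl ⟨empty_subset _, empty_subset _⟩⟩
  set e := X.orderEmbOfFin hX with he
  set f := Y.orderEmbOfFin hY with hf
  have key : ∀ (Z : Finset ℕ) (hZ : Z.card = 2 * M) (j : ℕ) (hj : j + M ≤ 2 * M),
      (univ.image (fun i : Fin M => Z.orderEmbOfFin hZ ⟨j + i, by omega⟩)).card = M ∧
      univ.image (fun i : Fin M => Z.orderEmbOfFin hZ ⟨j + i, by omega⟩) ⊆ Z := by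
    intro Z hZ j hj
    constructor
    · rw [card_image_of_injective, card_univ, Fintype.card_fin]
      intro i i' h
      have h1 := (Z.orderEmbOfFin hZ).injective h
      have h2 := congrArg Fin.val h1
      apply Fin.ext
      simpa using h2
    · intro z hz
      obtain ⟨i, -, rfl⟩ := mem_image.1 hz
      exact Z.orderEmbOfFin_mem hZ _
  by_cases h : e ⟨M - 1, by omega⟩ < f ⟨M, by omega⟩
  · obtain ⟨a1, a2⟩ := key Y hY M (by omega)
    obtain ⟨a3, a4⟩ := key X hX 0 (by omega)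
    refine ⟨_, _, a1, a3, ?_, Or.inr ⟨a2, a4⟩⟩
    intro x hx y hy
    obtain ⟨i, -, rfl⟩ := mem_image.1 hx
    obtain ⟨j, -, rfl⟩ := mem_image.1 hy
    have h1 : f ⟨M, by omega⟩ ≤ f ⟨M + i, by omega⟩ := f.monotone (by
      rw [Fin.le_def]; simp)
    have h2 : e ⟨0 + j, by omega⟩ ≤ e ⟨M - 1, by omega⟩ := e.monotone (by
      rw [Fin.le_def]
      have := j.2
      simp only
      omega)
    exact lt_of_le_of_lt h2 (lt_of_lt_of_le h h1)
  · push Not at h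
    obtain ⟨a1, a2⟩ := key X hX M (by omega)
    obtain ⟨a3, a4⟩ := key Y hY 0 (by omega)
    refine ⟨_, _, a1, a3, ?_, Or.inl ⟨a2, a4⟩⟩
    intro x hx y hy
    obtain ⟨i, -, rfl⟩ := mem_image.1 hx
    obtain ⟨j, -, rfl⟩ := mem_image.1 hy
    have h1 : e ⟨M - 1, by omega⟩ < e ⟨M + i, by omega⟩ := e.strictMono (by
      rw [Fin.lt_def]
      simp only
      omega)
    have h2 : f ⟨0 + j, by omega⟩ ≤ f ⟨M, by omega⟩ := f.monotone (by
      rw [Fin.le_def]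
      have := j.2
      simp only
      omega)
    exact lt_of_le_of_lt (h2.trans h) h1

/-- pigeonhole principle for the residue classes -/
theorem onec (W R : ℕ) (hW : 0 < W) (hR : 1 ≤ R) (X : Finset ℕ) (hX : W * R ≤ X.card) :
    ∃ X' ⊆ X, X'.card = R ∧ ∃ x₀ ∈ X', ∀ x ∈ X', (W : ℤ) ∣ (x : ℤ) - x₀ := by
  classical
  obtain ⟨r, -, hr⟩ := exists_le_card_fiber_of_mul_le_card_of_maps_to
    (s := X) (t := range W) (f := fun x => x % W) (n := R)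
    (fun x _ => mem_range.2 (Nat.mod_lt _ hW))
    ⟨0, mem_range.2 hW⟩ (by simpa using hX)
  obtain ⟨X', h1, h2⟩ := exists_subset_card_eq hr
  have hne : X'.Nonempty := by rw [← card_pos]; omega
  obtain ⟨x₀, hx₀⟩ := hne
  refine ⟨X', h1.trans (filter_subset _ _), h2, x₀, hx₀, fun x hx => ?_⟩
  have h3 := (mem_filter.1 (h1 hx)).2
  have h4 := (mem_filter.1 (h1 hx₀)).2
  have h5 : x₀ ≡ x [MOD W] := h4.trans h3.symm
  exact (Nat.modEq_iff_dvd.1 h5)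

open Classical in
/-- **Main theorem.** -/
theorem main (ε : ℝ) (hε : 0 < ε) : ∃ B C E : ℕ, ∀ᶠ N : ℕ in atTop, ∀ D : ℕ, C * D ≤ N →
    ∀ (m : ℕ) (κ : ℝ), (m = 2 ∧ κ = 1 / 8) ∨ (m = 6 ∧ κ = (2 - √3) / 2) →
    (∀ (X Y : Finset ℕ) (ρ : ℝ), (∀ x ∈ X ∪ Y, m ∣ x ∧ x ≤ D) → 0 < ρ → ρ ≤ 1 →
      (C : ℝ) / ρ ^ E ≤ X.card → (C : ℝ) / ρ ^ E ≤ Y.card →
      (((X ×ˢ Y).filter (fun z : ℕ × ℕ => z.1 ≠ z.2 ∧
        (difc N (Nat.dist z.1 z.2) : ℝ) < (N : ℝ) / (Real.log N) ^ B)).card : ℝ) ≤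
        ρ * (X.card * Y.card)) ∨
    (∀ b H : ℕ, 13 * N ≤ 24 * b → 10 * b ≤ 9 * N → C * D ≤ H → C * H ≤ N →
      (κ - ε) * H ≤ (((Ico b (b + H)).filter (fun c : ℕ =>
        (N : ℝ) / (Real.log N) ^ B ≤ golc N (-1) (c : ℤ))).card : ℝ)) := by
  obtain ⟨K, B, R, C₁, hK, hR, HW⟩ := window ε hε
  set W : ℕ := (4 * K + 3).factorial with hWd
  have hW0 : 0 < W := Nat.factorial_pos _
  obtain ⟨C₂, E, hC₂, HB⟩ := Pool.Agent.TH899.UG.box_pow (2 * (W * R)) 2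
  obtain ⟨C₃, hC₃⟩ := exists_nat_ge C₂
  refine ⟨B, C₁ + C₃, E, ?_⟩
  filter_upwards [HW] with N hN
  intro D hCD m κ hmκ
  by_contra hcon
  push Not at hcon
  obtain ⟨⟨X, Y, ρ, hXY, hρ0, hρ1, hXc, hYc, hbad⟩, b, H, hb1, hb2, hH1, hH2, hgood⟩ := hcon
  have hm2 : ∀ x : ℕ, m ∣ x → (2 : ℤ) ∣ (x : ℤ) := by
    intro x hx
    have h1 : 2 ∣ m := by rcases hmκ with h | h <;> rw [h.1] <;> norm_num
    exact_mod_cast h1.trans hx
  have hCle : ∀ z : ℕ, ((C₁ + C₃ : ℕ) : ℝ) / ρ ^ E ≤ z → C₂ / ρ ^ E ≤ z := by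
    intro z hz
    refine le_trans ?_ hz
    apply div_le_div_of_nonneg_right _ (by positivity)
    push_cast
    have : (0 : ℝ) ≤ C₁ := Nat.cast_nonneg _
    linarith
  set V : Fin 2 → Finset ℕ := ![X, Y] with hV
  set Bd := (Fintype.piFinset V).filter (fun f => f 0 ≠ f 1 ∧
    (difc N (Nat.dist (f 0) (f 1)) : ℝ) < (N : ℝ) / (Real.log N) ^ B) with hBd
  have hBdc : ((X ×ˢ Y).filter (fun z : ℕ × ℕ => z.1 ≠ z.2 ∧
        (difc N (Nat.dist z.1 z.2) : ℝ) < (N : ℝ) / (Real.log N) ^ B)).card ≤ Bd.card := by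
    refine card_le_card_of_injOn (fun z => (![z.1, z.2] : Fin 2 → ℕ)) ?_ ?_
    · intro z hz
      obtain ⟨h1, h2⟩ := mem_filter.1 (mem_coe.1 hz)
      obtain ⟨h3, h4⟩ := mem_product.1 h1
      refine mem_coe.2 (mem_filter.2 ⟨?_, h2⟩)
      rw [Fintype.mem_piFinset]
      intro i
      fin_cases i
      · exact h3
      · exact h4
    · rintro ⟨a, b⟩ _ ⟨a', b'⟩ _ h
      have k0 := congrFun h 0
      have k1 := congrFun h 1
      simp at k0 k1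
      simp [k0, k1]
  obtain ⟨A, hA1, hA2⟩ := HB ρ hρ0 hρ1 ℕ V (by
      intro i
      fin_cases i
      · exact hCle _ hXc
      · exact hCle _ hYc) Bd (filter_subset _ _) (by
      rw [Fin.prod_univ_two]
      show ρ * ((X.card : ℝ) * Y.card) ≤ Bd.card
      exact hbad.le.trans (by exact_mod_cast hBdc))
  have hmem : ∀ g i, A g i ∈ V g := by
    intro g i
    have h1 := hA2 (fun _ => i)
    have h2 := (mem_filter.1 h1).1
    rw [Fintype.mem_piFinset] at h2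
    exact h2 g
  have hAbad : ∀ i j, A 0 i ≠ A 1 j ∧
      (difc N (Nat.dist (A 0 i) (A 1 j)) : ℝ) < (N : ℝ) / (Real.log N) ^ B := by
    intro i j
    have h1 := hA2 ![i, j]
    exact (mem_filter.1 h1).2
  set X' := univ.image (A 0) with hX'
  set Y' := univ.image (A 1) with hY'
  have hX'c : X'.card = 2 * (W * R) := by
    rw [hX', card_image_of_injective _ (hA1 0), card_univ, Fintype.card_fin]
  have hY'c : Y'.card = 2 * (W * R) := by
    rw [hY', card_image_of_injective _ (hA1 1), card_univ, Fintype.card_fin]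
  have hXbad : ∀ x ∈ X', ∀ y ∈ Y', x ≠ y ∧
      (difc N (Nat.dist x y) : ℝ) < (N : ℝ) / (Real.log N) ^ B := by
    intro x hx y hy
    obtain ⟨i, -, rfl⟩ := mem_image.1 hx
    obtain ⟨j, -, rfl⟩ := mem_image.1 hy
    exact hAbad i j
  have hXm : ∀ x ∈ X', m ∣ x ∧ x ≤ D := by
    intro x hx
    obtain ⟨i, -, rfl⟩ := mem_image.1 hx
    exact hXY _ (mem_union_left _ (hmem 0 i))
  have hYm : ∀ x ∈ Y', m ∣ x ∧ x ≤ D := by
    intro x hx
    obtain ⟨i, -, rfl⟩ := mem_image.1 hx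
    exact hXY _ (mem_union_right _ (hmem 1 i))
  obtain ⟨P, Q, hPc, hQc, hPQ, hsub⟩ := sep (W * R) X' Y' hX'c hY'c
  obtain ⟨P', hP1, hP2, p₀, hp₀, hP3⟩ := onec W R hW0 hR P hPc.ge
  obtain ⟨Q', hQ1, hQ2, q₀, hq₀, hQ3⟩ := onec W R hW0 hR Q hQc.ge
  have hPm : ∀ x ∈ P', m ∣ x ∧ x ≤ D := by
    intro x hx
    rcases hsub with h | h
    · exact hXm x (h.1 (hP1 hx))
    · exact hYm x (h.1 (hP1 hx))
  have hQm : ∀ x ∈ Q', m ∣ x ∧ x ≤ D := by
    intro x hx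
    rcases hsub with h | h
    · exact hYm x (h.2 (hQ1 hx))
    · exact hXm x (h.2 (hQ1 hx))
  have hfin : ∀ x ∈ P', ∀ y ∈ Q', (difc N (x - y) : ℝ) < (N : ℝ) / (Real.log N) ^ B := by
    intro x hx y hy
    have hlt := hPQ x (hP1 hx) y (hQ1 hy)
    rcases hsub with h | h
    · have h1 := (hXbad x (h.1 (hP1 hx)) y (h.2 (hQ1 hy))).2
      rwa [Nat.dist_eq_sub_of_le_right hlt.le] at h1
    · have h1 := (hXbad y (h.2 (hQ1 hy)) x (h.1 (hP1 hx))).2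
      rwa [Nat.dist_eq_sub_of_le hlt.le] at h1
  have hCD1 : C₁ * D ≤ (C₁ + C₃) * D := Nat.mul_le_mul_right _ (by omega)
  have hCH1 : C₁ * H ≤ (C₁ + C₃) * H := Nat.mul_le_mul_right _ (by omega)
  obtain ⟨r1, r2⟩ := hN D P' Q' p₀ q₀ (hCD1.trans hCD) hP2 hQ2
    (fun x hx y hy => hPQ x (hP1 hx) y (hQ1 hy)) (fun x hx => (hPm x hx).2) hP3 hQ3
    (hm2 _ (hPm p₀ hp₀).1) (hm2 _ (hQm q₀ hq₀).1) hfin b H hb1 hb2 (hCD1.trans hH1)
    (hCH1.trans hH2)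
  rcases hmκ with ⟨hm, hκ⟩ | ⟨hm, hκ⟩
  · rw [hκ] at hgood
    exact absurd r1 (not_le.2 hgood)
  · rw [hκ] at hgood
    refine absurd (r2 ?_) (not_le.2 hgood)
    have h1 : (3 : ℤ) ∣ (p₀ : ℤ) := by
      exact_mod_cast (show 3 ∣ m by rw [hm]; norm_num).trans (hPm p₀ hp₀).1
    have h2 : (3 : ℤ) ∣ (q₀ : ℤ) := by
      exact_mod_cast (show 3 ∣ m by rw [hm]; norm_num).trans (hQm q₀ hq₀).1
    exact dvd_sub h1 h2

end Pool.Agent.U849.GP
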